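import Pool.Agent.N229.PG.Stm

/-! Project PG (MP_345ce5_an), leaf K3: bounds of the kernel. -/

set_option autoImplicit false

namespace PG

open Complex Filter Topology Metric Set

theorem k3_norm_cst (α : ℝ) : ‖cst α‖ = 1 := by
  have h : normSq (cst α) = 1 := by
    unfold cst
    rw [normSq_mk]
    have := Real.sin_sq_add_cos_sq (Real.pi * α / 2)
    nlinarith
  rw [Complex.normSq_eq_norm_sq] at h
  nlinarith [norm_nonneg (cst α)]

theorem k3_re (c D : ℂ) : (c * D⁻¹).re = ((starRingEnd ℂ) c * D).re / ‖D‖ ^ 2 := by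
  rw [← Complex.normSq_eq_norm_sq, Complex.mul_re, Complex.inv_re, Complex.inv_im, Complex.mul_re,
    Complex.conj_re, Complex.conj_im]
  ring

/-- the case of a large denominator -/
theorem k3_caseA {g x y N R : ℝ} (hg : 0 < g) (hg1 : g ≤ 1) (hy : 0 < y) (hx : x ≤ g / 4 * y)
    (hN : 0 < N) (hN2 : N ≤ y + x) (hR : g * y - x ≤ R) : N⁻¹ ≤ 8 / (3 * g) * (R / N ^ 2) := by
  have h1 : 3 * g / 4 * y ≤ R := by nlinarith
  have h2 : N ≤ 2 * y := by nlinarith
  have h3 : N ≤ 8 / (3 * g) * R := by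
    have h4 : 8 / (3 * g) * (3 * g / 4 * y) ≤ 8 / (3 * g) * R :=
      mul_le_mul_of_nonneg_left h1 (by positivity)
    have h5 : 8 / (3 * g) * (3 * g / 4 * y) = 2 * y := by
      field_simp
      ring
    linarith
  have h6 : 8 / (3 * g) * (R / N ^ 2) = 8 / (3 * g) * R / N ^ 2 := by ring
  rw [h6, le_div_iff₀ (by positivity)]
  have h7 : N⁻¹ * N ^ 2 = N := by field_simp
  rw [h7]
  exact h3

theorem leaf_K3 (hK1 : StmK1) : StmK3 := by
  intro α hα hα1
  have hpi := Real.pi_pos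
  obtain ⟨g, hg⟩ : ∃ g, g = Real.cos (Real.pi * α / 2) := ⟨_, rfl⟩
  obtain ⟨s0, hs0⟩ : ∃ s0, s0 = Real.sin (Real.pi * α) := ⟨_, rfl⟩
  have hgpos : 0 < g := by
    rw [hg]
    apply Real.cos_pos_of_mem_Ioo
    constructor
    · have : 0 < Real.pi * α / 2 := by positivity
      linarith
    · nlinarith
  have hg1 : g ≤ 1 := by rw [hg]; exact Real.cos_le_one _
  have hs0pos : 0 < s0 := by
    rw [hs0]
    apply Real.sin_pos_of_pos_of_lt_pi
    · positivity
    · nlinarith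
  have hα' : 0 < 1 - α := by linarith
  obtain ⟨κ, hκ⟩ : ∃ κ, κ = (g / 4) ^ (1 / (1 - α)) := ⟨_, rfl⟩
  have hκpos : 0 < κ := by rw [hκ]; positivity
  have hκp : κ ^ (1 - α) = g / 4 := by
    rw [hκ, ← Real.rpow_mul (by positivity), one_div, inv_mul_cancel₀ hα'.ne', Real.rpow_one]
  obtain ⟨C', hC'⟩ : ∃ C', C' = 1 / s0 * (1 + 1 / κ) := ⟨_, rfl⟩
  have hC'pos : 0 < C' := by rw [hC']; positivity
  obtain ⟨C, hC⟩ : ∃ C, C = max (8 / (3 * g)) (max (1 / s0) 2) := ⟨_, rfl⟩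
  have hCa : 8 / (3 * g) ≤ C := by rw [hC]; exact le_max_left _ _
  have hCb : 1 / s0 ≤ C := by rw [hC]; exact (le_max_left _ _).trans (le_max_right _ _)
  have hCc : 2 ≤ C := by rw [hC]; exact (le_max_right _ _).trans (le_max_right _ _)
  refine ⟨C, max 1 (C' + C * C'), by linarith, le_max_left _ _, ?_⟩
  intro ρ hρ s hs hs0'
  obtain ⟨σ, hσ⟩ : ∃ σ, σ = ρ ^ (1 - α) := ⟨_, rfl⟩
  have hσpos : 0 < σ := by rw [hσ]; positivity
  have hns : 0 < ‖s‖ := norm_pos_iff.2 hs0'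
  obtain ⟨h1, h2, h3, h4, h5⟩ := hK1 α hα hα1 σ hσpos s hs
  rw [← hs0] at h2 h3
  rw [← hg] at h5
  obtain ⟨y, hy⟩ : ∃ y, y = ‖s‖ ^ α := ⟨_, rfl⟩
  obtain ⟨x, hx⟩ : ∃ x, x = ‖s‖ / σ := ⟨_, rfl⟩
  rw [← hy] at h2 h4 h5
  rw [← hx] at h3 h4 h5
  have hypos : 0 < y := by rw [hy]; positivity
  have hxpos : 0 < x := by rw [hx]; positivity
  have hNpos : 0 < ‖den α σ s‖ := lt_of_lt_of_le (by positivity) h2
  have hker : ker α ρ s = (den α σ s)⁻¹ := by
    unfold ker
    rw [hσ]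
  have hW : ‖ker α ρ s‖ = ‖den α σ s‖⁻¹ := by rw [hker, norm_inv]
  have hsplit : ‖s‖ = ‖s‖ ^ α * ‖s‖ ^ (1 - α) := by
    rw [← Real.rpow_add hns, add_sub_cancel, Real.rpow_one]
  have hWx : ‖ker α ρ s‖ ≤ 1 / s0 * (σ / ‖s‖) := by
    rw [hW]
    have h6 : 1 / s0 * (σ / ‖s‖) = (s0 * x)⁻¹ := by
      rw [hx]
      field_simp
    rw [h6]
    exact inv_anti₀ (by positivity) h3
  rw [← hσ]
  refine ⟨?_, ?_, ?_, ?_, ?_⟩
  · rw [hker, Complex.inv_re]
    exact div_nonneg h1 (normSq_nonneg _)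
  · have hT : 0 < σ / (ρ + ‖s‖) := by positivity
    obtain ⟨T, hTd⟩ : ∃ T, T = σ / (ρ + ‖s‖) := ⟨_, rfl⟩
    rw [← hTd] at hT ⊢
    have hD1 : 1 ≤ max 1 (C' + C * C') := le_max_left _ _
    have hD2 : C' + C * C' ≤ max 1 (C' + C * C') := le_max_right _ _
    have hre : (cst α * ker α ρ s).re =
        ((starRingEnd ℂ) (cst α) * den α σ s).re / ‖den α σ s‖ ^ 2 := by
      rw [hker, k3_re]
    by_cases hcase : x ≤ g / 4 * y
    · have h6 := k3_caseA hgpos hg1 hypos hcase hNpos h4 h5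
      rw [← hre, ← hW] at h6
      have h7 : 0 ≤ (cst α * ker α ρ s).re := by
        rw [hre]
        refine div_nonneg ?_ (by positivity)
        nlinarith
      have h8 : 8 / (3 * g) * (cst α * ker α ρ s).re ≤ C * (cst α * ker α ρ s).re :=
        mul_le_mul_of_nonneg_right hCa h7
      have h9 : 0 ≤ max 1 (C' + C * C') * T := by positivity
      linarith
    · push Not at hcase
      have hsp : κ * ρ < ‖s‖ := by
        by_contra hcon
        push Not at hcon
        have h6 : ‖s‖ ^ (1 - α) ≤ (κ * ρ) ^ (1 - α) :=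
          Real.rpow_le_rpow hns.le hcon hα'.le
        rw [Real.mul_rpow hκpos.le hρ.le, hκp, ← hσ] at h6
        have h7 : x ≤ g / 4 * y := by
          rw [hx, div_le_iff₀ hσpos, hy]
          calc ‖s‖ = ‖s‖ ^ α * ‖s‖ ^ (1 - α) := hsplit
            _ ≤ ‖s‖ ^ α * (g / 4 * σ) := mul_le_mul_of_nonneg_left h6 (by positivity)
            _ = g / 4 * ‖s‖ ^ α * σ := by ring
        linarith
      have h6 : ‖ker α ρ s‖ ≤ C' * T := by
        refine hWx.trans ?_
        rw [hC', hTd, mul_assoc]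
        refine mul_le_mul_of_nonneg_left ?_ (by positivity)
        rw [← mul_div_assoc, div_le_div_iff₀ hns (by positivity)]
        have h7 : ρ + ‖s‖ ≤ (1 + 1 / κ) * ‖s‖ := by
          have h8 : ρ ≤ 1 / κ * ‖s‖ := by
            rw [div_mul_eq_mul_div, one_mul, le_div_iff₀ hκpos]
            linarith
          linarith
        calc σ * (ρ + ‖s‖) ≤ σ * ((1 + 1 / κ) * ‖s‖) := mul_le_mul_of_nonneg_left h7 hσpos.le
          _ = (1 + 1 / κ) * σ * ‖s‖ := by ring
      have h7 : -‖ker α ρ s‖ ≤ (cst α * ker α ρ s).re := by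
        have h8 := Complex.abs_re_le_norm (cst α * ker α ρ s)
        rw [norm_mul, k3_norm_cst, one_mul] at h8
        exact (abs_le.1 h8).1
      have h8 : (C' + C * C') * T ≤ max 1 (C' + C * C') * T :=
        mul_le_mul_of_nonneg_right hD2 hT.le
      have h9 : -(C * (C' * T)) ≤ C * (cst α * ker α ρ s).re := by
        have h10 : -(C' * T) ≤ (cst α * ker α ρ s).re := by linarith
        have h11 := mul_le_mul_of_nonneg_left h10 (show 0 ≤ C by linarith)
        linarith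
      nlinarith
  · exact hWx.trans (mul_le_mul_of_nonneg_right hCb (by positivity))
  · intro hsr
    have h6 : x ≤ y := by
      rw [hx, div_le_iff₀ hσpos, hy]
      calc ‖s‖ = ‖s‖ ^ α * ‖s‖ ^ (1 - α) := hsplit
        _ ≤ ‖s‖ ^ α * σ := by
          refine mul_le_mul_of_nonneg_left ?_ (by positivity)
          rw [hσ]
          exact Real.rpow_le_rpow hns.le hsr hα'.le
    have h7 : ‖den α σ s‖ ≤ 2 * y := by linarith
    rw [← hy, hW]
    have h8 : ‖den α σ s‖ * ‖den α σ s‖⁻¹ ≤ 2 * y * ‖den α σ s‖⁻¹ :=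
      mul_le_mul_of_nonneg_right h7 (by positivity)
    rw [mul_inv_cancel₀ hNpos.ne'] at h8
    have h9 : 0 ≤ y * ‖den α σ s‖⁻¹ := by positivity
    nlinarith
  · intro hsre
    have hne : den α σ s ≠ 0 := norm_pos_iff.1 hNpos
    have hslit : s ∈ slitPlane := Or.inl hsre
    have hd : DifferentiableAt ℂ (den α σ) s := by
      unfold den
      refine DifferentiableAt.add ?_ ?_
      · exact (differentiableAt_id.cpow_const hslit).const_mul _
      · exact differentiableAt_id.div_const _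
    have h6 : ker α ρ = fun z => (den α σ z)⁻¹ := by
      funext z
      unfold ker
      rw [hσ]
    rw [h6]
    exact hd.inv hne

end PG
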